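import Pool.Agent.MWS.StmtsW

/-!
# Squad MWS, row EWX: insertion in W1
-/

set_option autoImplicit false

namespace Pool.Agent.MWS.H62

open Pool.Agent.Helper14_MV Pool.Agent.Helper2_MV Pool.Agent.MVO Pool.Agent.MWL

theorem ewx (hIdx : IdxStmt) : EwxStmt := by
  intro β hβ p q a b ha hb
  by_cases hab : a = b
  · subst hab
    exact hIdx β hβ.toClX p (a :: q) a (Or.inr (by simp)) 2 (by norm_num)
  · have hb' : b ∈ p ++ [a] ∨ b ∈ q := by
      rcases hb with h | h
      · exact Or.inl (List.mem_append_left _ h)
      · exact Or.inr h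
    have hb2 : b ∈ p ++ [a] ∨ b ∈ a :: q := by
      rcases hb with h | h
      · exact Or.inl (List.mem_append_left _ h)
      · exact Or.inr (List.mem_cons_of_mem _ h)
    have h1 : RR β (p ++ a :: b :: q) (p ++ a :: b :: b :: q) := by
      have h := hIdx β hβ.toClX (p ++ [a]) q b hb' 2 (by norm_num)
      simpa [List.replicate] using h
    have h3 : RR β (p ++ a :: b :: a :: q) (p ++ a :: b :: b :: a :: q) := by
      have h := hIdx β hβ.toClX (p ++ [a]) (a :: q) b hb2 2 (by norm_num)
      simpa [List.replicate] using h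
    have h2 : RR β (p ++ a :: b :: b :: q) (p ++ a :: b :: b :: a :: q) := by
      obtain ⟨q1, q2, rfl⟩ := List.append_of_mem ha
      have h := hβ.e0.sub (fun n => if n = 0 then [a] else if n = 1 then [b] else q1)
      have h' := ((RR.refl (β := β) p).append h).append (RR.refl (β := β) q2)
      simpa using h'
    exact β.trans (β.trans h1 h2) (β.symm h3)

end Pool.Agent.MWS.H62
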